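import Pool.Agent.Helper65.RT.Goals

/-!
# Packet LSOP of the project RT: the operations on digits are computed in linear space
-/

namespace Pool.Agent.Helper74.RT

open Pool.Agent.Helper65.LinSpace Finset
open Pool.Agent.Helper81.Tok3 (fhG rgn)
open Pool.Agent.Helper65.RT (Mach LSM LSFN_stmt LSOP_stmt)

variable {α β : Type} [Ctx α] [Ctx β]

theorem lsm_comp {m : α → Mach} {C : α → ℕ} (h : LSM m C) {f : β → α} (hf : LS f) :
    LSM (fun z => m (f z)) (fun z => C (f z)) where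
  σ := LS.comp (g := fun z => (m z).σ) h.σ hf
  a := LS.comp (g := fun z => (m z).a) h.a hf
  b := LS.comp (g := fun z => (m z).b) h.b hf
  E := LS.comp (g := fun z => (m z).E) h.E hf
  G := LS.comp (g := fun z => (m z).G) h.G hf
  K := LS.comp (g := fun z => (m z).K) h.K hf
  q := LS.comp (g := fun z : α × ℕ × ℕ × ℕ => (m z.1).q z.2.1 z.2.2.1 z.2.2.2)
    (f := fun z : β × ℕ × ℕ × ℕ => (f z.1, z.2)) h.q (by fun_prop)
  g := LS.comp (g := fun z : α × ℕ × ℕ × ℕ × ℕ => (m z.1).g z.2.1 z.2.2.1 z.2.2.2.1 z.2.2.2.2)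
    (f := fun z : β × ℕ × ℕ × ℕ × ℕ => (f z.1, z.2)) h.g (by fun_prop)
  o := LS.comp (g := fun z : α × ℕ × ℕ => (m z.1).o z.2.1 z.2.2)
    (f := fun z : β × ℕ × ℕ => (f z.1, z.2)) h.o (by fun_prop)
  t0 := LS.comp (g := fun z : α × ℕ => (m z.1).t0 z.2) (f := fun z : β × ℕ => (f z.1, z.2)) h.t0
    (by fun_prop)
  root := LS.comp (g := fun z => (m z).root) h.root hf
  bd := LS.comp (g := C) h.bd hf
  ok z := h.ok (f z)
  hC z := h.hC (f z)
  hS z := h.hS (f z)

section

variable {m : α → Mach} {C : α → ℕ}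

theorem pow_le_C (h : LSM m C) (z : α) {n : ℕ} (hn : n ≤ (m z).σ) : 2 ^ n ≤ C z := by
  refine (Nat.pow_le_pow_right (by norm_num) (hn.trans ?_)).trans (h.hS z)
  exact Nat.le_mul_of_pos_right _ (h.ok z).hE

theorem ls_pow (h : LSM m C) : LS (fun z => 2 ^ (m z).σ) :=
  LS.pow_of_le (f := fun _ => 2) (LS.const 2) h.σ h.bd fun z => pow_le_C h z le_rfl

theorem ls_t0 (h : LSM m C) {q : α → ℕ} (hq : LS q) : LS (fun z => (m z).t0 (q z)) :=
  LS.comp (g := fun z : α × ℕ => (m z.1).t0 z.2) (f := fun z => (z, q z)) h.t0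
    (LS.prodMk LS.id hq)

theorem ls_wn (h : LSM m C) : LS (fun z => (m z).wn) := by
  have h1 := h.a
  have h2 := h.E
  unfold Mach.wn
  fun_prop

theorem ls_wv (h : LSM m C) : LS (fun z => (m z).wv) := by
  have h1 := h.E
  have h2 := h.b
  unfold Mach.wv
  fun_prop

theorem ls_zb (h : LSM m C) {k : α → ℕ} (hk : LS k) : LS (fun z => (m z).zb (k z)) := by
  have h1 := ls_wn h
  have h2 := ls_wv h
  have h3 := h.G
  unfold Mach.zb
  fun_prop

theorem ls_yb (h : LSM m C) {k : α → ℕ} (hk : LS k) : LS (fun z => (m z).yb (k z)) := by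
  have h1 := ls_wn h
  have h2 := ls_zb h hk
  have h3 := h.G
  unfold Mach.yb
  fun_prop

end

theorem sum_two_pow_lt (n : ℕ) : ∑ i ∈ range n, 2 ^ i < 2 ^ n := by
  induction n with
  | zero => simp
  | succ n ih =>
    rw [sum_range_succ, pow_succ]
    omega

section

variable {m : α → Mach} {C p l j S x k : α → ℕ}

theorem ls_qN {t : α → ℕ} (h : LSM m C) (hp : LS p) (hp0 : ∀ z, 0 < p z)
    (hS : LS S) (ht : LS t) : LS (fun z => (m z).qN (dig (p z) (S z)) (t z)) := by
  have hσ := h.σ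
  have hσ' : LS (fun z : α × ℕ => (m z.1).σ) := (lsm_comp h LS.fst).σ
  have h1 : LS (fun z => ∑ o ∈ range (m z).σ,
      dig (p z) (S z) (6 * (t z * (m z).σ + o) + 4) * capPow 2 o (C z)) := by
    refine LS.sum (f := fun z o => dig (p z) (S z) (6 * (t z * (m z).σ + o) + 4) *
      capPow 2 o (C z)) (C := fun z => p z * C z) ?_ hσ (LS.mul hp h.bd) ?_
    · have hC := h.bd
      fun_prop
    · intro z
      have h2 : ∑ o ∈ range (m z).σ, dig (p z) (S z) (6 * (t z * (m z).σ + o) + 4) *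
          capPow 2 o (C z) ≤ ∑ o ∈ range (m z).σ, p z * 2 ^ o := by
        refine sum_le_sum fun o _ => Nat.mul_le_mul (Nat.mod_lt _ (hp0 z)).le (min_le_left _ _)
      refine h2.trans ?_
      rw [← mul_sum]
      exact Nat.mul_le_mul_left _ ((sum_two_pow_lt _).le.trans (pow_le_C h z le_rfl))
  refine LS.congr h1 fun z => ?_
  unfold Mach.qN tab
  refine sum_congr rfl fun i hi => ?_
  have hi' := mem_range.1 hi
  have h3 : 2 ^ i ≤ C z := pow_le_C h z hi'.le
  rw [capPow, min_eq_left (by omega)]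

theorem ls_tgN (h : LSM m C) (hp : LS p) (hS : LS S) (hk : LS k) :
    LS (fun z => (m z).tgN (dig (p z) (S z)) (k z)) := by
  have h1 := ls_yb h hk
  have h2 := h.E
  have h3 := h.b
  unfold Mach.tgN
  fun_prop

theorem ls_rgn {lo n x : α → ℕ} (h1 : LS lo) (h2 : LS n) (h3 : LS x) :
    LS (fun z => rgn (lo z) (n z) (x z)) := by
  unfold rgn
  fun_prop

theorem ls_isY (h : LSM m C) (hp : LS p) (hl : LS l) (hS : LS S) :
    LS (fun z => (m z).isY (dig (p z) (S z)) (l z)) := by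
  have hG := h.G
  unfold Mach.isY
  fun_prop

theorem ls_isZ (h : LSM m C) (hp : LS p) (hl : LS l) (hj : LS j) (hS : LS S) :
    LS (fun z => (m z).isZ (dig (p z) (S z)) (l z) (j z)) := by
  have hG := h.G
  unfold Mach.isZ
  fun_prop

theorem ls_isN (h : LSM m C) (hp : LS p) (hl : LS l) (hS : LS S) :
    LS (fun z => (m z).isN (dig (p z) (S z)) (l z)) := by
  have hG := h.G
  unfold Mach.isN
  fun_prop

theorem ls_isP (h : LSM m C) (hp : LS p) (hl : LS l) (hj : LS j) (hS : LS S) :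
    LS (fun z => (m z).isP (dig (p z) (S z)) (l z) (j z)) := by
  have hG := h.G
  unfold Mach.isP
  fun_prop

theorem ls_isQ {t : α → ℕ} (h : LSM m C) (ht : LS t) : LS (fun z => (m z).isQ (t z)) := by
  have hE := h.E
  unfold Mach.isQ
  fun_prop

theorem ls_ixq {t : α → ℕ} (h : LSM m C) (ht : LS t) : LS (fun z => (m z).ixq (t z)) := by
  have hE := h.E
  unfold Mach.ixq
  fun_prop

theorem ls_yR {i u y c t sg : α → ℕ} (H : LSFN_stmt) (h : LSM m C) (hp : LS p)
    (hp0 : ∀ z, 0 < p z) (hk : LS k) (hi : LS i) (hu : LS u) (hy : LS y) (hc : LS c) (ht : LS t)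
    (hsg : LS sg) (hS : LS S) (hx : LS x) :
    LS (fun z => (m z).yR (p z) (k z) (min (i z) ((m z).G - 1)) (u z) (y z) (c z) (t z) (sg z)
      (dig (p z) (S z)) (x z)) := by
  have hE := h.E
  have hG := h.G
  have h2 := ls_yb h hk
  have h3 := ls_zb h hk
  have h4 := ls_wn h
  have h5 := ls_rgn h2 (ls_wv h) hx
  have h6 : LS (fun z => rgn ((m z).zb (k z) + min (i z) ((m z).G - 1) * (m z).wn) (m z).wn
      (x z)) := ls_rgn (by fun_prop) h4 hx
  have h7 : LS (fun z => invN (p z) (c z)) := LS.invN hp hc hp0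
  have h8 : LS (fun z => fhG (p z) ((m z).nv (min (i z) ((m z).G - 1)))
      ((m z).F (min (i z) ((m z).G - 1)) (u z) (y z))
      (x z - ((m z).zb (k z) + min (i z) ((m z).G - 1) * (m z).wn))
      ((m z).varN (min (i z) ((m z).G - 1)) (fun j => dig (p z) (S z) (6 * ((m z).zb (k z) + j)))
        fun j => dig (p z) (S z) (6 * ((m z).yb (k z) + j)))) :=
    (H (X := fun z j => dig (p z) (S z) (6 * j)) h hp hp0 hi hu hy
      (q := fun z => x z - ((m z).zb (k z) + min (i z) ((m z).G - 1) * (m z).wn)) (by fun_prop)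
      hk (by fun_prop)).1
  unfold Mach.yR
  fun_prop

/-- `nR` with a bounded node. -/
theorem nR_eq (m : Mach) (p l j : ℕ) (a : ℕ → ℕ) (x : ℕ) : m.nR p l j a x =
  ifz (m.isY a l)
    (ifz (m.isZ a l j)
      (ifz (m.isN a l * rgn (m.zb (l / (m.G + 2))) (a (6 * (l + 1) + 2) * m.wn) x)
        (a (6 * x))
        (ifz (j % (2 * m.G + 3))
          ((j / (2 * m.G + 3) + 1) * a (6 * x) % p)
          (ifz (eq01 (j % (2 * m.G + 3)) (2 * m.G + 2)) (a (6 * x))
            (invN p (j / (2 * m.G + 3) + 1) * a (6 * x) % p))))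
      (ifz (rgn (m.tgN a (l / (m.G + 2) + 1)) m.b x) (a (6 * x))
        ((a (6 * x) + ifz (a (6 * (l + 1) + 3)) (p - 1) 1 *
          fhG p (m.G * m.wn) (m.o (m.qN a (l / (m.G + 2) + 1))) (x - m.tgN a (l / (m.G + 2) + 1))
            fun j => a (6 * (m.zb (l / (m.G + 2)) + j))) % p)))
    (m.yR p (l / (m.G + 2)) (min (a (6 * (l + 1) + 2)) (m.G - 1)) (m.qN a (l / (m.G + 2) + 1))
      (j / (2 * m.E + 3) / (p - 1)) (j / (2 * m.E + 3) % (p - 1) + 1) (j % (2 * m.E + 3))
      (a (6 * (l + 1) + 3)) a x) := by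
  unfold Mach.nR
  by_cases h : m.isY a l = 0
  · rw [h, ifz_zero, ifz_zero]
  · have h1 : a (6 * (l + 1) + 2) < m.G := by
      by_contra h2
      refine h ?_
      unfold Mach.isY lt01
      rw [if_neg h2, mul_zero, mul_zero]
    rw [min_eq_left (by omega)]

theorem ls_nR (H : LSFN_stmt) (h : LSM m C) (hp : LS p) (hp0 : ∀ z, 0 < p z) (hl : LS l)
    (hj : LS j) (hS : LS S) (hx : LS x) :
    LS (fun z => (m z).nR (p z) (l z) (j z) (dig (p z) (S z)) (x z)) := by
  have hY := ls_isY h hp hl hS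
  have hZ := ls_isZ h hp hl hj hS
  have hN := ls_isN h hp hl hS
  have hG := h.G
  have hE := h.E
  have hb := h.b
  have hw := ls_wn h
  have hq : LS (fun z => (m z).qN (dig (p z) (S z)) (l z / ((m z).G + 2) + 1)) :=
    ls_qN h hp hp0 hS (by fun_prop)
  have ht : LS (fun z => (m z).tgN (dig (p z) (S z)) (l z / ((m z).G + 2) + 1)) :=
    ls_tgN h hp hS (k := fun z => l z / ((m z).G + 2) + 1) (by fun_prop)
  have hzb : LS (fun z => (m z).zb (l z / ((m z).G + 2))) :=
    ls_zb h (k := fun z => l z / ((m z).G + 2)) (by fun_prop)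
  have hi : LS (fun z => invN (p z) (j z / (2 * (m z).G + 3) + 1)) :=
    LS.invN hp (by fun_prop) hp0
  have hr1 : LS (fun z => rgn ((m z).zb (l z / ((m z).G + 2)))
      (dig (p z) (S z) (6 * (l z + 1) + 2) * (m z).wn) (x z)) := ls_rgn hzb (by fun_prop) hx
  have hr2 : LS (fun z => rgn ((m z).tgN (dig (p z) (S z)) (l z / ((m z).G + 2) + 1)) (m z).b
      (x z)) := ls_rgn ht hb hx
  have hz : LS (fun z => fhG (p z) ((m z).G * (m z).wn)
      ((m z).o ((m z).qN (dig (p z) (S z)) (l z / ((m z).G + 2) + 1)))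
      (x z - (m z).tgN (dig (p z) (S z)) (l z / ((m z).G + 2) + 1))
      (fun j => dig (p z) (S z) (6 * ((m z).zb (l z / ((m z).G + 2)) + j)))) :=
    (H (X := fun z j => dig (p z) (S z) (6 * j)) h hp hp0 (i := fun _ => 0) (LS.const 0)
      (x := fun z => (m z).qN (dig (p z) (S z)) (l z / ((m z).G + 2) + 1)) hq
      (y := fun _ => 0) (LS.const 0)
      (q := fun z => x z - (m z).tgN (dig (p z) (S z)) (l z / ((m z).G + 2) + 1)) (by fun_prop)
      (k := fun z => l z / ((m z).G + 2)) (by fun_prop) (by fun_prop)).2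
  have hy : LS (fun z => (m z).yR (p z) (l z / ((m z).G + 2))
      (min (dig (p z) (S z) (6 * (l z + 1) + 2)) ((m z).G - 1))
      ((m z).qN (dig (p z) (S z)) (l z / ((m z).G + 2) + 1))
      (j z / (2 * (m z).E + 3) / (p z - 1)) (j z / (2 * (m z).E + 3) % (p z - 1) + 1)
      (j z % (2 * (m z).E + 3)) (dig (p z) (S z) (6 * (l z + 1) + 3)) (dig (p z) (S z)) (x z)) :=
    ls_yR H h hp hp0 (k := fun z => l z / ((m z).G + 2)) (by fun_prop)
      (i := fun z => dig (p z) (S z) (6 * (l z + 1) + 2)) (by fun_prop)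
      (u := fun z => (m z).qN (dig (p z) (S z)) (l z / ((m z).G + 2) + 1)) hq
      (y := fun z => j z / (2 * (m z).E + 3) / (p z - 1)) (by fun_prop)
      (c := fun z => j z / (2 * (m z).E + 3) % (p z - 1) + 1) (by fun_prop)
      (t := fun z => j z % (2 * (m z).E + 3)) (by fun_prop)
      (sg := fun z => dig (p z) (S z) (6 * (l z + 1) + 3)) (by fun_prop) hS hx
  simp only [nR_eq]
  fun_prop

theorem ls_cMd (h : LSM m C) (hp : LS p) (hl : LS l) (hj : LS j) (hS : LS S) :
    LS (fun z => (m z).cMd (l z) (j z) (dig (p z) (S z))) := by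
  have hY := ls_isY h hp hl hS
  have hZ := ls_isZ h hp hl hj hS
  have hN := ls_isN h hp hl hS
  have hP := ls_isP h hp hl hj hS
  have hG := h.G
  have hE := h.E
  have hQ : LS (fun z => (m z).isQ (j z % (2 * (m z).E + 3))) :=
    ls_isQ h (t := fun z => j z % (2 * (m z).E + 3)) (by fun_prop)
  unfold Mach.cMd
  fun_prop

theorem ls_cNd (h : LSM m C) (hp : LS p) (hl : LS l) (hj : LS j) (hS : LS S) :
    LS (fun z => (m z).cNd (l z) (j z) (dig (p z) (S z))) := by
  have hY := ls_isY h hp hl hS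
  have hZ := ls_isZ h hp hl hj hS
  have hN := ls_isN h hp hl hS
  have hP := ls_isP h hp hl hj hS
  have hG := h.G
  have hE := h.E
  have hQ : LS (fun z => (m z).isQ (j z % (2 * (m z).E + 3))) :=
    ls_isQ h (t := fun z => j z % (2 * (m z).E + 3)) (by fun_prop)
  unfold Mach.cNd
  fun_prop

theorem ls_cSg (h : LSM m C) (hp : LS p) (hl : LS l) (hj : LS j) (hS : LS S) :
    LS (fun z => (m z).cSg (l z) (j z) (dig (p z) (S z))) := by
  have hY := ls_isY h hp hl hS
  have hZ := ls_isZ h hp hl hj hS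
  have hN := ls_isN h hp hl hS
  have hP := ls_isP h hp hl hj hS
  have hG := h.G
  have hE := h.E
  have hQ : LS (fun z => (m z).isQ (j z % (2 * (m z).E + 3))) :=
    ls_isQ h (t := fun z => j z % (2 * (m z).E + 3)) (by fun_prop)
  unfold Mach.cSg
  fun_prop

theorem ls_nQ (h : LSM m C) (hp : LS p) (hl : LS l) (hj : LS j) (hS : LS S)
    (hx : LS x) : LS (fun z => (m z).nQ (p z) (l z) (j z) (dig (p z) (S z)) (x z)) := by
  have hY := ls_isY h hp hl hS
  have hG := h.G
  have hE := h.E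
  have hσ := h.σ
  have hpw := ls_pow h
  have hQ : LS (fun z => (m z).isQ (j z % (2 * (m z).E + 3))) :=
    ls_isQ h (t := fun z => j z % (2 * (m z).E + 3)) (by fun_prop)
  have hI : LS (fun z => (m z).ixq (j z % (2 * (m z).E + 3))) :=
    ls_ixq h (t := fun z => j z % (2 * (m z).E + 3)) (by fun_prop)
  unfold Mach.nQ
  fun_prop

theorem ls_nSl (h : LSM m C) (hp : LS p) (hl : LS l) (hj : LS j) (hS : LS S)
    (hx : LS x) : LS (fun z => (m z).nSl (l z) (j z) (dig (p z) (S z)) (x z)) := by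
  have hY := ls_isY h hp hl hS
  have hG := h.G
  have hE := h.E
  have hQ : LS (fun z => (m z).isQ (j z % (2 * (m z).E + 3))) :=
    ls_isQ h (t := fun z => j z % (2 * (m z).E + 3)) (by fun_prop)
  have hI : LS (fun z => (m z).ixq (j z % (2 * (m z).E + 3))) :=
    ls_ixq h (t := fun z => j z % (2 * (m z).E + 3)) (by fun_prop)
  unfold Mach.nSl
  fun_prop

theorem ls_opA (H : LSFN_stmt) (h : LSM m C) (hp : LS p) (hp0 : ∀ z, 0 < p z) (hl : LS l)
    (hj : LS j) (hS : LS S) (hx : LS x) :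
    LS (fun z => (m z).opA (p z) (l z) (j z) (dig (p z) (S z)) (x z)) := by
  have h1 := ls_nR H h hp hp0 hl hj hS (x := fun z => x z / 6) (by fun_prop)
  have h2 := ls_nQ h hp hl hj hS (x := fun z => x z / 6) (by fun_prop)
  have h3 := ls_nSl h hp hl hj hS (x := fun z => x z / 6) (by fun_prop)
  have h5 := ls_cMd h hp hl hj hS
  have h6 := ls_cNd h hp hl hj hS
  have h7 := ls_cSg h hp hl hj hS
  unfold Mach.opA
  fun_prop

theorem ls_baseA (h : LSM m C) (hp : LS p) (hp0 : ∀ z, 0 < p z) (hS : LS S)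
    (hx : LS x) : LS (fun z => (m z).baseA (p z) (dig (p z) (S z)) (x z)) := by
  have hb := h.b
  have ht : LS (fun z => (m z).tgN (dig (p z) (S z)) 0) :=
    ls_tgN h hp hS (k := fun _ => 0) (LS.const 0)
  have hr : LS (fun z => rgn ((m z).tgN (dig (p z) (S z)) 0) (m z).b (x z / 6)) :=
    ls_rgn ht hb (by fun_prop)
  have hq : LS (fun z => (m z).qN (dig (p z) (S z)) 0) :=
    ls_qN h hp hp0 hS (t := fun _ => 0) (LS.const 0)
  have hM : LS (fun z => (m z).t0 ((m z).qN (dig (p z) (S z)) 0)) := ls_t0 h hq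
  unfold Mach.baseA
  fun_prop

end

theorem lsop (H : LSFN_stmt) : LSOP_stmt := by
  intro α _ m C p h hp hp0
  constructor
  · exact ls_opA H (α := α × ℕ × ℕ × ℕ × ℕ) (m := fun z => m z.1) (C := fun z => C z.1)
      (p := fun z => p z.1) (l := fun z => z.2.1) (j := fun z => z.2.2.1)
      (S := fun z => z.2.2.2.1) (x := fun z => z.2.2.2.2) (lsm_comp h LS.fst)
      (by fun_prop) (fun z => hp0 z.1) (by fun_prop) (by fun_prop) (by fun_prop) (by fun_prop)
  · exact ls_baseA (α := α × ℕ × ℕ) (m := fun z => m z.1) (C := fun z => C z.1)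
      (p := fun z => p z.1) (S := fun z => z.2.1) (x := fun z => z.2.2)
      (lsm_comp h LS.fst) (by fun_prop) (fun z => hp0 z.1) (by fun_prop) (by fun_prop)

end Pool.Agent.Helper74.RT
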